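import Pool.Agent.TH634.DD.Main

/-!
# Directed 1-domination in oriented complete hypergraphs is `O(log n / log log n)`

Write `u → v` if `v` is not the first vertex of an edge containing `u`. If there is no directed
1-dominating set of `κ` vertices, then any `κ` vertices have a common in-neighbour, and every
`r`-subset has a vertex (its first one) without in-neighbours in the set. Counting `κ`-tuples and
the greedy algorithm give a set `T` of at most `1 + n ^ (1 / κ) log n` vertices whose
out-neighbours are all vertices. If `T` had at most `κ ^ (r - 1)` vertices, then taking common
in-neighbours of groups of `κ` vertices `r - 1` times would give a closed walk of length `r`, hence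
an `r`-subset in which every vertex has an in-neighbour. So `κ ^ (r - 1) ≤ n ^ (1 / κ) log n + 1`.
-/

set_option autoImplicit false

namespace Pool.Agent.Results.MP_869403_co.FirstVertexDomination

open Pool.Agent.TH634.DD

/-- For every `r ≥ 3` and every `c > 1 / (r - 2)`, the upper directed 1-domination number of the
complete `r`-uniform hypergraph on `n` vertices is at most `c log n / log log n` for all large
`n`. -/
theorem result (r : ℕ) (hr : 3 ≤ r) (c : ℝ) (hc : 1 / ((r : ℝ) - 2) < c) :
    ∃ N : ℕ, ∀ n : ℕ, N ≤ n →
      (Gamma n r 1 : ℝ) ≤ c * (Real.log n / Real.log (Real.log n)) :=
  main r hr c hc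

end Pool.Agent.Results.MP_869403_co.FirstVertexDomination
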